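import Pool.Agent.J4H20.AS.Stm
import Pool.Agent.N855.SG.Cert

/-!
# Project AS6: (CNT), the number of the real solutions of `∏ (x - t) = - v`
-/

set_option autoImplicit false

namespace Pool.Agent.J4H38.AS

open Polynomial Pool.Agent.R713.AS Pool.Agent.N855.SG

/-- thresholds between the values of a finite set. -/
theorem thresh (V : Finset ℝ) : ∀ U : ℝ, 0 < U → (∀ x ∈ V, 0 < x ∧ x < U) → ∀ s : ℕ, s ≤ V.card →
    ∃ v₁ v₂ : ℝ, 0 < v₁ ∧ v₁ < v₂ ∧ v₂ ≤ U ∧ ∀ v : ℝ, v₁ < v → v < v₂ →
      (V.filter (fun x => v < x)).card = s ∧ v ∉ V := by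
  classical
  induction V using Finset.induction_on_max with
  | empty =>
    intro U hU _ s hs
    refine ⟨U / 2, U, by linarith, by linarith, le_rfl, fun v _ _ => ⟨?_, by simp⟩⟩
    simp at hs
    simp [hs]
  | insert M V hM ih =>
    intro U hU hV s hs
    have hMV : M ∉ V := fun h => lt_irrefl _ (hM M h)
    obtain ⟨hM0, hMU⟩ := hV M (Finset.mem_insert_self _ _)
    rcases Nat.eq_zero_or_pos s with h0 | h0
    · refine ⟨M, U, hM0, hMU, le_rfl, fun v hv1 _ => ⟨?_, ?_⟩⟩
      · rw [h0, Finset.card_eq_zero, Finset.filter_eq_empty_iff]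
        intro x hx
        rcases Finset.mem_insert.1 hx with h1 | h1
        · rw [h1]
          exact not_lt.2 hv1.le
        · exact not_lt.2 ((hM x h1).trans hv1).le
      · intro hx
        rcases Finset.mem_insert.1 hx with h1 | h1
        · exact hv1.ne' h1
        · exact lt_irrefl _ ((hM v h1).trans hv1)
    · rw [Finset.card_insert_of_notMem hMV] at hs
      obtain ⟨v₁, v₂, h1, h2, h3, h4⟩ := ih M hM0
        (fun x hx => ⟨(hV x (Finset.mem_insert_of_mem hx)).1, hM x hx⟩) (s - 1) (by omega)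
      refine ⟨v₁, v₂, h1, h2, h3.trans hMU.le, fun v hv1 hv2 => ?_⟩
      obtain ⟨h5, h6⟩ := h4 v hv1 hv2
      have hvM : v < M := lt_of_lt_of_le hv2 h3
      constructor
      · rw [Finset.filter_insert, if_pos hvM, Finset.card_insert_of_notMem
          (fun h => hMV (Finset.mem_of_mem_filter _ h)), h5]
        omega
      · intro hx
        rcases Finset.mem_insert.1 hx with h7 | h7
        · exact hvM.ne h7
        · exact h6 h7

/-- the lobes -/
def Lobe {n : ℕ} (k : Fin n) : Prop := k.val ≠ 0 ∧ (n - k.val) % 2 = 1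

instance {n : ℕ} (k : Fin n) : Decidable (Lobe k) := by
  unfold Lobe
  infer_instance

theorem prd_lt {n : ℕ} (k : Fin n) (hk : k.val ≠ 0) : prd k < k := by
  rw [Fin.lt_def]
  change k.val - 1 < k.val
  omega

theorem gapset {n : ℕ} {A : Fin n → ℝ} (hA : ∀ i j, i < j → A i < A j) (k : Fin n)
    (hk : k.val ≠ 0) : {x | x < A k ∧ ∀ i, i < k → A i < x} = Set.Ioo (A (prd k)) (A k) := by
  ext x
  simp only [Set.mem_ofPred_eq, Set.mem_Ioo]
  constructor
  · rintro ⟨h3, h4⟩
    exact ⟨h4 _ (prd_lt k hk), h3⟩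
  · rintro ⟨h3, h4⟩
    refine ⟨h4, fun i hi => lt_of_le_of_lt ?_ h3⟩
    rcases eq_or_ne i (prd k) with h5 | h5
    · rw [h5]
    · refine (hA i _ (lt_of_le_of_ne ?_ h5)).le
      rw [Fin.le_def]
      change i.val ≤ k.val - 1
      have := Fin.lt_def.1 hi
      omega

/-- the minimum on a lobe -/
theorem minimum {n : ℕ} {A : Fin n → ℝ} (hA : ∀ i j, i < j → A i < A j) (k : Fin n)
    (hk : Lobe k) : ∃ m : ℝ, A (prd k) < m ∧ m < A k ∧ (PP A).eval m < 0 ∧
      (derivative (PP A)).eval m = 0 ∧
      ∀ x : ℝ, A (prd k) < x → x < A k → (PP A).eval m ≤ (PP A).eval x := by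
  have hroot : ∀ j, (PP A).eval (A j) = 0 := fun j => by
    rw [eval_PP]
    exact Finset.prod_eq_zero (Finset.mem_univ j) (sub_self _)
  have hlt : A (prd k) < A k := hA _ _ (prd_lt k hk.1)
  have hneg : ∀ x : ℝ, A (prd k) < x → x < A k → (PP A).eval x < 0 := by
    intro x h1 h2
    have h3 : x ∈ {x | x < A k ∧ ∀ i, i < k → A i < x} := by
      rw [gapset hA k hk.1]
      exact ⟨h1, h2⟩
    have h4 := sign A hA k x h3.1 h3.2
    rw [(Nat.odd_iff.2 hk.2).neg_one_pow] at h4
    rw [eval_PP]
    linarith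
  obtain ⟨m, hm, hmin⟩ := isCompact_Icc.exists_isMinOn (Set.nonempty_Icc.2 hlt.le)
    (f := fun x => (PP A).eval x) (PP A).continuous.continuousOn
  have hmid := hneg ((A (prd k) + A k) / 2) (by linarith) (by linarith)
  have h1 : (PP A).eval m ≤ (PP A).eval ((A (prd k) + A k) / 2) :=
    hmin (show (A (prd k) + A k) / 2 ∈ Set.Icc (A (prd k)) (A k) from ⟨by linarith, by linarith⟩)
  have h2 : (PP A).eval m < 0 := by linarith
  have hml : A (prd k) < m := lt_of_le_of_ne hm.1 fun h => by
    rw [← h, hroot] at h2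
    exact lt_irrefl _ h2
  have hmr : m < A k := lt_of_le_of_ne hm.2 fun h => by
    rw [h, hroot] at h2
    exact lt_irrefl _ h2
  refine ⟨m, hml, hmr, h2, ?_, fun x hx1 hx2 => hmin (show x ∈ Set.Icc _ _ from ⟨hx1.le, hx2.le⟩)⟩
  have h3 : IsLocalMin (fun x => (PP A).eval x) m := hmin.isLocalMin (Icc_mem_nhds hml hmr)
  have h4 := h3.hasDerivAt_eq_zero ((PP A).hasDerivAt m)
  exact h4

/-- the number of solutions in terms of the minima -/
theorem count' {n : ℕ} (hn : 0 < n) {A : Fin n → ℝ} (hA : ∀ i j, i < j → A i < A j)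
    (m : Fin n → ℝ) (hm : ∀ k, Lobe k → A (prd k) < m k ∧ m k < A k ∧
      ∀ x : ℝ, A (prd k) < x → x < A k → (PP A).eval (m k) ≤ (PP A).eval x)
    {v : ℝ} (hv : 0 < v) (hvd : ∀ k, Lobe k → (PP A).eval (m k) ≠ - v) :
    {x : ℝ | (PP A).eval x = - v}.ncard = ∑ k : Fin n, (if (n - k.val) % 2 = 1 then
      (if k.val = 0 then 1 else if (PP A).eval (m k) < - v then 2 else 0) else 0) := by
  classical
  have : NeZero n := ⟨hn.ne'⟩
  have : Nonempty (Fin n) := ⟨0⟩
  have hroot : ∀ j, (PP A).eval (A j) = 0 := fun j => by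
    rw [eval_PP]
    exact Finset.prod_eq_zero (Finset.mem_univ j) (sub_self _)
  refine ncard_pieces (κ := Fin n) _ ?_ (fun j => {x | x < A j ∧ ∀ i, i < j → A i < x}) ?_ ?_ _ ?_
  · have h1 : PP A + C v ≠ 0 := by
      intro h
      have h2 := congrArg (eval (A 0)) h
      rw [eval_add, eval_C, eval_zero, hroot] at h2
      linarith
    refine (Polynomial.finite_setOfPred_isRoot h1).subset fun x hx => ?_
    simp only [Set.mem_ofPred_eq, IsRoot.def, eval_add, eval_C] at hx ⊢
    linarith
  · intro x hx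
    simp only [Set.mem_ofPred_eq] at hx
    rw [eval_PP] at hx
    have h1 : ∃ i, x < A i := by
      by_contra hcon
      push Not at hcon
      have : 0 ≤ ∏ i, (x - A i) := Finset.prod_nonneg fun i _ => by
        have := hcon i
        linarith
      linarith
    obtain ⟨i0, hi0⟩ := h1
    obtain ⟨j, hj, hmin⟩ := WellFounded.has_min (wellFounded_lt (α := Fin n)) {i | x < A i} ⟨i0, hi0⟩
    refine ⟨j, hj, fun i hi => ?_⟩
    have h2 : A i ≤ x := not_lt.1 fun h3 => hmin i h3 hi
    refine lt_of_le_of_ne h2 fun h3 => ?_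
    rw [Finset.prod_eq_zero (Finset.mem_univ i) (by rw [h3, sub_self])] at hx
    linarith
  · rintro k k' x ⟨hk1, hk2⟩ ⟨hk1', hk2'⟩
    rcases lt_trichotomy k k' with h3 | h3 | h3
    · exact absurd (hk2' k h3) (not_lt.2 hk1.le)
    · exact h3
    · exact absurd (hk2 k' h3) (not_lt.2 hk1'.le)
  · intro k
    by_cases hp : (n - k.val) % 2 = 1
    · rw [if_pos hp]
      by_cases hk0 : k.val = 0
      · rw [if_pos hk0]
        have hI : {x | x < A k ∧ ∀ i, i < k → A i < x} = Set.Iio (A k) := by
          ext x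
          simp only [Set.mem_ofPred_eq, Set.mem_Iio, and_iff_left_iff_imp]
          intro _ i hi
          exact absurd hi (by rw [Fin.lt_def]; omega)
        rw [hI]
        have hg : ∀ i, A k ≤ A i := fun i => by
          rcases eq_or_ne k i with h3 | h3
          · rw [h3]
          · exact (hA k i (lt_of_le_of_ne (by rw [Fin.le_def]; omega) h3)).le
        refine left' A (A k) (A k - (1 + v)) v hg (hroot k) hv (by linarith) ?_
        rw [eval_PP]
        have h3 := sign A hA k (A k - (1 + v)) (by linarith) (fun i hi => absurd hi (by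
          rw [Fin.lt_def]; omega))
        have hodd : Odd (n - k.val) := Nat.odd_iff.2 hp
        rw [hodd.neg_one_pow] at h3
        have h4 : 1 + v ≤ |∏ i, (A k - (1 + v) - A i)| := by
          rw [Finset.abs_prod]
          calc 1 + v = |A k - (1 + v) - A k| * 1 := by
                rw [mul_one, abs_of_nonpos (by linarith)]; ring
            _ ≤ |A k - (1 + v) - A k| * ∏ i ∈ Finset.univ.erase k, |A k - (1 + v) - A i| := by
                refine mul_le_mul_of_nonneg_left ?_ (abs_nonneg _)
                have : ∀ i ∈ Finset.univ.erase k, (1 : ℝ) ≤ |A k - (1 + v) - A i| := fun i _ => by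
                  have := hg i
                  rw [abs_of_nonpos (by linarith)]
                  linarith
                calc (1 : ℝ) = ∏ i ∈ Finset.univ.erase k, (1 : ℝ) := by simp
                  _ ≤ _ := Finset.prod_le_prod (fun _ _ => zero_le_one) this
            _ = _ := Finset.mul_prod_erase Finset.univ (fun i => |A k - (1 + v) - A i|)
                (Finset.mem_univ k)
        rw [abs_of_neg (by linarith)] at h4
        linarith
      · rw [if_neg hk0, gapset hA k hk0]
        obtain ⟨hm1, hm2, hm3⟩ := hm k ⟨hk0, hp⟩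
        by_cases hD : (PP A).eval (m k) < - v
        · rw [if_pos hD]
          refine gap A (A (prd k)) (A k) (m k) v ?_ (hroot _) (hroot _) hm1 hm2 hv hD
          intro i
          rcases lt_or_ge i k with h3 | h3
          · left
            rcases eq_or_ne i (prd k) with h5 | h5
            · rw [h5]
            · refine (hA i _ (lt_of_le_of_ne ?_ h5)).le
              rw [Fin.le_def]
              change i.val ≤ k.val - 1
              have := Fin.lt_def.1 h3
              omega
          · right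
            rcases h3.eq_or_lt with h5 | h5
            · rw [h5]
            · exact (hA _ _ h5).le
        · rw [if_neg hD]
          have hset : {x : ℝ | (PP A).eval x = - v} ∩ Set.Ioo (A (prd k)) (A k) = ∅ := by
            rw [Set.eq_empty_iff_forall_notMem]
            rintro x ⟨hx, hx1, hx2⟩
            simp only [Set.mem_ofPred_eq] at hx
            have h5 := hm3 x hx1 hx2
            rw [hx] at h5
            exact hvd k ⟨hk0, hp⟩ (le_antisymm h5 (not_lt.1 hD))
          rw [hset, Set.ncard_empty]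
    · rw [if_neg hp]
      have hset : {x : ℝ | (PP A).eval x = - v} ∩ {x | x < A k ∧ ∀ i, i < k → A i < x} = ∅ := by
        rw [Set.eq_empty_iff_forall_notMem]
        rintro x ⟨hx, hx1, hx2⟩
        simp only [Set.mem_ofPred_eq] at hx
        rw [eval_PP] at hx
        have h3 := sign A hA k x hx1 hx2
        have heven : Even (n - k.val) := by
          rw [Nat.even_iff]
          omega
        rw [heven.neg_one_pow, one_mul] at h3
        linarith
      rw [hset, Set.ncard_empty]

/-- the number of lobes -/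
theorem card_lobes (n : ℕ) : (Finset.univ.filter (fun k : Fin n => Lobe k)).card = n / 2 := by
  have h1 : (Finset.univ.filter (fun k : Fin n => Lobe k)).card =
      ((Finset.range n).filter (fun k => k ≠ 0 ∧ (n - k) % 2 = 1)).card := by
    rw [← Finset.card_map Fin.valEmbedding]
    congr 1
    ext x
    simp only [Finset.mem_map, Finset.mem_filter, Finset.mem_univ, true_and, Fin.valEmbedding_apply,
      Finset.mem_range, Lobe]
    constructor
    · rintro ⟨k, hk, rfl⟩
      exact ⟨k.2, hk⟩
    · rintro ⟨hx, h⟩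
      exact ⟨⟨x, hx⟩, h, rfl⟩
  rw [h1]
  have h2 : (Finset.range n).filter (fun k => k ≠ 0 ∧ (n - k) % 2 = 1) =
      (Finset.range (n / 2)).image (fun i => n - 1 - 2 * i) := by
    ext x
    simp only [Finset.mem_filter, Finset.mem_range, Finset.mem_image]
    constructor
    · rintro ⟨hx, h3, h4⟩
      exact ⟨(n - 1 - x) / 2, by omega, by omega⟩
    · rintro ⟨i, hi, rfl⟩
      omega
  rw [h2, Finset.card_image_of_injOn, Finset.card_range]
  intro i hi j hj h
  have hi' := Finset.mem_range.1 (Finset.mem_coe.1 hi)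
  have hj' := Finset.mem_range.1 (Finset.mem_coe.1 hj)
  simp only at h
  omega

theorem t_CNT : Pool.Agent.J4H20.AS.S_CNT := by
  classical
  intro T hT hNT r hr hr2
  set n := T.card with hn
  have hn0 : 0 < n := Finset.card_pos.2 hT
  have : NeZero n := ⟨hn0.ne'⟩
  set A : Fin n → ℝ := fun i => T.orderEmbOfFin rfl i with hAdef
  have hA : ∀ i j, i < j → A i < A j := fun i j hij => (T.orderEmbOfFin rfl).strictMono hij
  have hPP : Pool.Agent.J4H20.AS.RP T = PP A := by
    rw [Pool.Agent.J4H20.AS.RP, PP]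
    conv_lhs => rw [← Finset.map_orderEmbOfFin_univ T rfl]
    rw [Finset.prod_map]
    rfl
  rw [hPP] at hNT ⊢
  have hmin : ∀ k : Fin n, ∃ m : ℝ, Lobe k → (A (prd k) < m ∧ m < A k ∧ (PP A).eval m < 0 ∧
      (derivative (PP A)).eval m = 0 ∧
      ∀ x : ℝ, A (prd k) < x → x < A k → (PP A).eval m ≤ (PP A).eval x) := by
    intro k
    by_cases hk : Lobe k
    · obtain ⟨m, hm⟩ := minimum hA k hk
      exact ⟨m, fun _ => hm⟩
    · exact ⟨0, fun h => absurd h hk⟩
  choose m hm using hmin
  set L : Finset (Fin n) := Finset.univ.filter (fun k : Fin n => Lobe k) with hL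
  set d : Fin n → ℝ := fun k => - (PP A).eval (m k) with hd
  have hmne : ∀ k k', Lobe k → Lobe k' → k ≠ k' → m k ≠ m k' := by
    intro k k' hk hk' hne h
    obtain ⟨h1, h2, _⟩ := hm k hk
    obtain ⟨h3, h4, _⟩ := hm k' hk'
    have g1 : m k ∈ {x | x < A k ∧ ∀ i, i < k → A i < x} := by
      rw [gapset hA k hk.1]
      exact ⟨h1, h2⟩
    have g2 : m k' ∈ {x | x < A k' ∧ ∀ i, i < k' → A i < x} := by
      rw [gapset hA k' hk'.1]
      exact ⟨h3, h4⟩
    rcases lt_or_gt_of_ne hne with h5 | h5
    · have := g2.2 k h5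
      have := g1.1
      linarith
    · have := g1.2 k' h5
      have := g2.1
      linarith
  have hdinj : Set.InjOn d (L : Set (Fin n)) := by
    intro k hk k' hk' h
    have hk1 : Lobe k := (Finset.mem_filter.1 (Finset.mem_coe.1 hk)).2
    have hk2 : Lobe k' := (Finset.mem_filter.1 (Finset.mem_coe.1 hk')).2
    by_contra hne
    refine hNT (m k) (m k') (hm k hk1).2.2.2.1 (hm k' hk2).2.2.2.1 (hmne k k' hk1 hk2 hne) ?_
    simp only [hd] at h
    linarith
  set V : Finset ℝ := L.image d with hV
  have hVcard : V.card = n / 2 := by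
    rw [hV, Finset.card_image_of_injOn hdinj, hL, card_lobes]
  have hVpos : ∀ x ∈ V, 0 < x := by
    intro x hx
    obtain ⟨k, hk, rfl⟩ := Finset.mem_image.1 hx
    have := (hm k (Finset.mem_filter.1 hk).2).2.2.1
    simp only [hd]
    linarith
  obtain ⟨U, hU0, hU⟩ : ∃ U : ℝ, 0 < U ∧ ∀ x ∈ V, x < U := by
    refine ⟨∑ x ∈ V, x + 1, ?_, ?_⟩
    · have : 0 ≤ ∑ x ∈ V, x := Finset.sum_nonneg (fun x hx => (hVpos x hx).le)
      linarith
    · intro x hx
      have := Finset.single_le_sum (f := fun y : ℝ => y) (fun y hy => (hVpos y hy).le) hx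
      linarith
  obtain ⟨v₁, v₂, h1, h2, _, h4⟩ := thresh V U hU0 (fun x hx => ⟨hVpos x hx, hU x hx⟩) (r / 2)
    (by rw [hVcard]; omega)
  refine ⟨v₁, v₂, h1, h2, fun v hv1 hv2 => ?_⟩
  obtain ⟨h5, h6⟩ := h4 v hv1 hv2
  have hv : 0 < v := h1.trans hv1
  rw [count' hn0 hA m (fun k hk => ⟨(hm k hk).1, (hm k hk).2.1, (hm k hk).2.2.2.2⟩) hv ?_]
  · have h7 : (L.filter (fun k => v < d k)).card = r / 2 := by
      rw [← h5, hV, Finset.filter_image, Finset.card_image_of_injOn]
      exact hdinj.mono (by
        intro k hk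
        exact Finset.mem_coe.2 (Finset.mem_of_mem_filter _ (Finset.mem_coe.1 hk)))
    have h8 : ∀ k : Fin n, (if (n - k.val) % 2 = 1 then
        (if k.val = 0 then 1 else if (PP A).eval (m k) < - v then 2 else 0) else 0) =
        (if k = 0 then n % 2 else 0) + 2 * (if Lobe k ∧ v < d k then 1 else 0) := by
      intro k
      have hk0 : k = 0 ↔ k.val = 0 := by
        rw [Fin.ext_iff]
        rfl
      have hvd : v < d k ↔ (PP A).eval (m k) < - v := by
        simp only [hd]
        constructor <;> intro h <;> linarith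
      by_cases g0 : k.val = 0
      · have e1 : ¬ (Lobe k ∧ v < d k) := fun h => h.1.1 g0
        by_cases g1 : (n - k.val) % 2 = 1
        · rw [if_pos g1, if_pos g0, if_pos (hk0.2 g0), if_neg e1]
          rw [g0] at g1
          omega
        · rw [if_neg g1, if_pos (hk0.2 g0), if_neg e1]
          rw [g0] at g1
          omega
      · rw [if_neg g0, if_neg (fun h => g0 (hk0.1 h))]
        by_cases g1 : (n - k.val) % 2 = 1
        · rw [if_pos g1]
          by_cases g2 : (PP A).eval (m k) < - v
          · rw [if_pos g2, if_pos ⟨⟨g0, g1⟩, hvd.2 g2⟩]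
          · rw [if_neg g2, if_neg (fun h => g2 (hvd.1 h.2))]
        · rw [if_neg g1, if_neg (fun h => g1 h.1.2)]
    rw [Finset.sum_congr rfl (fun k _ => h8 k), Finset.sum_add_distrib, ← Finset.mul_sum,
      Finset.sum_ite_eq' Finset.univ (0 : Fin n) (fun _ => n % 2), if_pos (Finset.mem_univ _),
      ← Finset.card_filter, ← Finset.filter_filter, ← hL, h7]
    omega
  · intro k hk hc
    apply h6
    rw [hV]
    refine Finset.mem_image.2 ⟨k, Finset.mem_filter.2 ⟨Finset.mem_univ _, hk⟩, ?_⟩
    simp only [hd]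
    linarith

end Pool.Agent.J4H38.AS
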